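import Pool.Agent.Lib.helper22.CXBinC

namespace Pool.Agent.H.MP_0403ae_lc

open Pool.Agent.Lib.CX Finset

/-- the positions of the letter `i` in `S`, in increasing order -/
def pos (S : List ℕ) (i : ℕ) : List ℕ := (List.range S.length).filter fun k => S[k]? = some i

/-- the cyclic distances between consecutive occurrences of the letter `i` -/
def dists (S : List ℕ) (i : ℕ) : List ℕ :=
  List.zipWith (· - ·) ((pos S i).tail ++ [(pos S i).headD 0 + S.length]) (pos S i)

/-- the total demand -/
def tot (a : List (ℕ × List ℕ)) : ℕ := (a.map Prod.fst).sum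

/-- each `x.2` is a decomposition vector of the total demand into `x.1 > 0` components -/
def Valid (a : List (ℕ × List ℕ)) : Prop :=
  ∀ x ∈ a, 0 < x.1 ∧ x.2.length = x.1 ∧ (∀ y ∈ x.2, 0 < y) ∧ x.2.Pairwise (· ≥ ·) ∧ x.2.sum = tot a

/-- some just-in-time sequence has the prescribed multisets of distances -/
def Feas (a : List (ℕ × List ℕ)) : Prop :=
  ∃ S : List ℕ, S.length = tot a ∧ (∀ s ∈ S, s < a.length) ∧
    ∀ (i : ℕ) (h : i < a.length), S.count i = a[i].1 ∧ (dists S i).Perm a[i].2

theorem mem_pos {S : List ℕ} {i k : ℕ} : k ∈ pos S i ↔ S[k]? = some i := by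
  simp only [pos, List.mem_filter, List.mem_range, decide_eq_true_eq]
  exact ⟨fun h => h.2, fun h => ⟨(List.getElem?_eq_some_iff.1 h).1, h⟩⟩

theorem pos_sorted (S : List ℕ) (i : ℕ) : (pos S i).Pairwise (· < ·) := List.pairwise_lt_range.filter _

theorem len_pos (S : List ℕ) (i : ℕ) : (pos S i).length = S.count i := by
  induction S using List.reverseRecOn with
  | nil => simp [pos]
  | append_singleton S x ih =>
    rw [List.count_append, ← ih, pos, List.length_append, List.length_singleton, List.range_succ, List.filter_append,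
      List.length_append, pos]
    congr 1
    · congr 1
      exact List.filter_congr fun k hk => by rw [List.getElem?_append_left (List.mem_range.1 hk)]
    · by_cases h : x = i <;> simp [h]

theorem zip_range (c E : ℕ) : ∀ n s, List.zipWith (· - ·) ((List.range' s (n + 1) c).tail ++ [E])
    (List.range' s (n + 1) c) = List.replicate n c ++ [E - (s + n * c)] := by
  intro n
  induction n with
  | zero => simp
  | succ n ih =>
    intro s
    have := ih (s + c)
    simp only [List.range'_succ, List.tail_cons] at this ⊢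
    simp only [List.cons_append, List.zipWith_cons_cons, List.replicate_succ, this]
    congr 3 <;> [omega; (congr 1; ring)]

theorem dists_range {S : List ℕ} {i s n c : ℕ} (hc : 0 < c) (h : ∀ k, S[k]? = some i ↔ ∃ t < n + 1, k = s + c * t) :
    S.count i = n + 1 ∧ dists S i = List.replicate n c ++ [S.length - n * c] := by
  have : pos S i = List.range' s (n + 1) c :=
    (pos_sorted S i).eq_of_mem_iff (List.pairwise_lt_range' c hc) fun k => by rw [mem_pos, h, List.mem_range']
  refine ⟨by rw [← len_pos, this]; simp, ?_⟩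
  rw [dists, this, zip_range]
  simp [List.range'_succ]; omega

theorem dists_get {S : List ℕ} {i : ℕ} (h : pos S i ≠ []) : ∃ P : ℕ → ℕ, (dists S i).length = S.count i ∧
    (∀ t (h : t < (dists S i).length), P (t + 1) = P t + (dists S i)[t]) ∧ P (S.count i) = P 0 + S.length ∧
    ∀ k, S[k]? = some i ↔ ∃ t < S.count i, k = P t := by
  have hl := len_pos S i
  have h0 : 0 < S.count i := hl ▸ List.length_pos_iff.2 h
  have h1 : (dists S i).length = S.count i := by simp [dists, hl]; omega
  have h2 : ∀ t (ht : t < (pos S i).length), (pos S i)[t] < S.length := fun t ht =>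
    (List.getElem?_eq_some_iff.1 (mem_pos.1 (List.getElem_mem ht))).1
  have h3 : (pos S i).headD 0 = (pos S i).getD 0 0 := by cases pos S i <;> rfl
  refine ⟨fun t => (pos S i).getD t ((pos S i).getD 0 0 + S.length), h1, fun t ht => ?_, ?_, fun k => ?_⟩
  · have ht' : t < (pos S i).length := by omega
    simp only [dists, List.getElem_zipWith, h3]
    rw [List.getD_eq_getElem _ _ ht']
    by_cases c : t + 1 < (pos S i).length
    · rw [List.getD_eq_getElem _ _ c, List.getElem_append_left (by simp; omega), List.getElem_tail]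
      have := List.pairwise_iff_getElem.1 (pos_sorted S i) t (t + 1) ht' c (by omega)
      omega
    · rw [List.getD_eq_default _ _ (not_lt.1 c), List.getElem_append_right (by simp; omega)]
      have := h2 t ht'
      simp only [List.getElem_singleton]; omega
  · simp only
    rw [List.getD_eq_default _ _ hl.le, List.getD_eq_getElem _ _ (hl ▸ h0), List.getD_eq_getElem _ _ (hl ▸ h0)]
  · rw [← mem_pos, List.mem_iff_getElem]
    exact ⟨fun ⟨t, ht, e⟩ => ⟨t, hl ▸ ht, e.symm.trans (List.getD_eq_getElem _ _ ht).symm⟩,
      fun ⟨t, ht, e⟩ => ⟨t, hl ▸ ht, (e.trans (List.getD_eq_getElem _ _ (hl ▸ ht))).symm⟩⟩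

theorem inNP : InNP fun a : {a // Valid a} => Feas a.1 := by
  refine InNP.of_cert' (γ := List ℕ) (fun a S => S.length = tot a.1 ∧ (∀ s ∈ S, s < a.1.length) ∧
    ∀ i < a.1.length, S.count i = (a.1.getD i (0, [])).1 ∧ ∀ x ∈ dists S i ++ (a.1.getD i (0, [])).2,
      (dists S i).count x = (a.1.getD i (0, [])).2.count x) (fun a => size a * (3 * size a + 3) + 2)
    (by unfold dists pos tot; fun_prop) (by have := PB.size' (α := {a // Valid a}); fun_prop)
    (fun a S ⟨h1, h2, h3⟩ => ⟨S, h1, h2, fun i hi => ?_⟩) fun a ⟨S, h1, h2, h3⟩ => ⟨S, ?_, h1, h2, fun i hi => ?_⟩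
  · have := h3 i hi
    rw [List.getD_eq_getElem _ _ hi] at this
    refine ⟨this.1, List.perm_iff_count.2 fun x => ?_⟩
    by_cases c : x ∈ dists S i ++ a.1[i].2
    · exact this.2 x c
    · simp only [List.mem_append, not_or] at c
      rw [List.count_eq_zero_of_not_mem c.1, List.count_eq_zero_of_not_mem c.2]
  · have a1 : a.1.length ≤ size a := length_le_size a.1
    have a2 : ∀ l : List (ℕ × List ℕ), (∀ x ∈ l, x.2.length = x.1) → tot l ≤ size l := fun l hl => by
      induction l with
      | nil => simp [tot]
      | cons x l ih =>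
        have := ih fun y hy => hl y (by simp [hy])
        have := hl x (by simp)
        have := length_le_size x.2
        obtain ⟨x1, x2⟩ := x
        simp only [tot, List.map_cons, List.sum_cons, size_cons, size_pair] at *; omega
    have a3 : tot a.1 ≤ size a := a2 a.1 fun x hx => (a.2 x hx).2.1
    refine (size_list_le (B := 3 * size a + 2) fun x hx => (size_nat_le x).trans ?_).trans ?_
    · have := h2 x hx; omega
    · exact Nat.add_le_add_right (Nat.mul_le_mul_right _ (h1 ▸ a3)) _
  · rw [List.getD_eq_getElem _ _ hi]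
    exact ⟨(h3 i hi).1, fun x _ => (h3 i hi).2.count_eq x⟩

def red (L : List (List Unit)) (m B : ℕ) : List (ℕ × List ℕ) :=
  (m, List.replicate m (B + 1)) :: L.map fun x =>
    (x.length, (m * (B + 1) - (x.length - 1)) :: List.replicate (x.length - 1) 1)

section
variable {L : List (List Unit)} {m B : ℕ} (h1 : ∀ x ∈ L, 2 ≤ x.length) (h2 : 0 < m)
  (h3 : (L.map List.length).sum = m * B)
include h1 h2 h3

theorem tot_red : tot (red L m B) = m * (B + 1) := by
  simp [tot, red, Function.comp_def, h3]; ring

theorem len_le : ∀ x ∈ L, x.length ≤ m * B := fun x hx =>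
  h3 ▸ List.le_sum_of_mem (List.mem_map_of_mem hx)

theorem valid_red : Valid (red L m B) := by
  intro x hx
  rw [tot_red h1 h2 h3]
  rcases List.mem_cons.1 hx with rfl | hx
  · simp [h2]
  · obtain ⟨y, hy, rfl⟩ := List.mem_map.1 hx
    have := h1 y hy
    have := len_le h1 h2 h3 y hy
    simp [mul_add]; omega

theorem fwd (h : Pack (· = ·) (fun i => (L.getD i []).length) L.length m B) : Feas (red L m B) := by
  classical
  obtain ⟨g, g1, g2⟩ := h
  set a := fun i => (L.getD i []).length with ha
  let st := fun i => g i * (B + 1) + 1 + off a g i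
  have b1 : ∀ i < L.length, off a g i + a i ≤ B := fun i hi => (off_le hi).trans (g2 _ (g1 i hi)).le
  have b2 : ∀ i < L.length, ∀ k, st i ≤ k → k < st i + a i → k / (B + 1) = g i ∧ k % (B + 1) = k - g i * (B + 1) :=
    fun i hi k c1 c2 => by
      have := b1 i hi
      have e : k / (B + 1) = g i := Nat.div_eq_of_lt_le (by simp only [st] at c1; omega)
        (by simp only [st, add_mul] at c2 ⊢; omega)
      exact ⟨e, by rw [Nat.mod_def, e, mul_comm]⟩
  have b3 : ∀ i < L.length, ∀ j < L.length, ∀ k, st i ≤ k → k < st i + a i → st j ≤ k → k < st j + a j → i = j :=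
    fun i hi j hj k c1 c2 c3 c4 => by
      have e := (b2 i hi k c1 c2).1.symm.trans (b2 j hj k c3 c4).1
      simp only [st, e] at c1 c2 c3 c4
      rcases lt_trichotomy i j with c | c | c
      · have := off_lt (a := a) c e; omega
      · exact c
      · have := off_lt (a := a) c e.symm; omega
  let le := fun k => if h : ∃ i < L.length, st i ≤ k ∧ k < st i + a i then h.choose + 1 else 0
  have b4 : ∀ k j, ((List.range (m * (B + 1))).map le)[k]? = some j ↔ k < m * (B + 1) ∧ le k = j := fun k j => by
    by_cases c : k < m * (B + 1) <;> simp [c]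
  refine ⟨(List.range (m * (B + 1))).map le, by simp [tot_red h1 h2 h3], ?_, fun i hi => ?_⟩
  · simp only [List.forall_mem_map, le, red, List.length_cons, List.length_map]
    intro k _
    split_ifs with c
    · have := c.choose_spec.1; omega
    · omega
  · cases i with
    | zero =>
      obtain ⟨n, rfl⟩ : ∃ n, m = n + 1 := ⟨m - 1, by omega⟩
      obtain ⟨c1, c2⟩ := dists_range (S := (List.range ((n + 1) * (B + 1))).map le) (i := 0) (s := 0) (n := n)
        (c := B + 1) (by omega) fun k => by
          rw [b4]
          constructor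
          · rintro ⟨d1, d2⟩
            have d3 : k / (B + 1) < n + 1 := Nat.div_lt_of_lt_mul (by rwa [mul_comm])
            refine ⟨k / (B + 1), d3, ?_⟩
            have d4 := Nat.div_add_mod k (B + 1)
            have d5 := Nat.mod_lt k (show B + 1 > 0 by omega)
            by_contra d6
            obtain ⟨i, e1, e2, e3, e4⟩ := off_cover (a := a) (g := g) (b := k / (B + 1)) (t := k % (B + 1) - 1)
              L.length (by rw [g2 _ d3]; omega)
            have : ∃ i < L.length, st i ≤ k ∧ k < st i + a i :=
              ⟨i, e1, by simp only [st, e2, mul_comm (k / (B + 1))]; omega⟩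
            simp [le, this] at d2
          · rintro ⟨t, d1, rfl⟩
            refine ⟨by nlinarith, dif_neg ?_⟩
            rintro ⟨i, e1, e2, e3⟩
            have := (b2 i e1 _ e2 e3).2
            simp only [st, zero_add, Nat.mul_mod_right] at this e2; omega
      refine ⟨c1, c2 ▸ List.Perm.of_eq ?_⟩
      simp [red, List.replicate_succ', add_mul]
    | succ i =>
      have hi' : i < L.length := by simpa [red] using hi
      have e : a i = L[i].length := by simp [ha, hi']
      have := h1 _ (List.getElem_mem hi')
      obtain ⟨c1, c2⟩ := dists_range (S := (List.range (m * (B + 1))).map le) (i := i + 1) (s := st i) (n := a i - 1)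
        (c := 1) (by omega) fun k => by
          rw [b4]
          constructor
          · rintro ⟨d1, d2⟩
            simp only [le] at d2
            split_ifs at d2 with c
            obtain ⟨-, e2, e3⟩ := c.choose_spec
            rw [show c.choose = i by omega] at e2 e3
            exact ⟨k - st i, by omega, by omega⟩
          · rintro ⟨t, d1, rfl⟩
            have c : ∃ j < L.length, st j ≤ st i + 1 * t ∧ st i + 1 * t < st j + a j := ⟨i, hi', by omega, by omega⟩
            have := b1 i hi'
            have := Nat.mul_le_mul_right (B + 1) (g1 i hi')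
            refine ⟨by simp only [st, Nat.succ_mul] at *; omega, ?_⟩
            simp only [le, dif_pos c]
            rw [b3 _ c.choose_spec.1 i hi' _ c.choose_spec.2.1 c.choose_spec.2.2 (by omega) (by omega)]
      refine ⟨by rw [c1]; simp [red]; omega, ?_⟩
      rw [c2, e]
      simp [red]

theorem bwd (h : Feas (red L m B)) : Pack (· ≤ ·) (fun i => (L.getD i []).length) L.length m B := by
  obtain ⟨S, s1, -, s3⟩ := h
  rw [tot_red h1 h2 h3] at s1
  have ne : ∀ i, 0 < S.count i → pos S i ≠ [] := fun i h => List.length_pos_iff.1 (len_pos S i ▸ h)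
  obtain ⟨c1, c2⟩ := s3 0 (by simp [red])
  simp only [red, List.getElem_cons_zero] at c1 c2
  obtain ⟨P, p1, p2, -, p4⟩ := dists_get (ne 0 (by omega))
  have p5 : ∀ t ≤ m, P t = P 0 + t * (B + 1) := fun t ht => by
    induction t with
    | zero => simp
    | succ t ih =>
      rw [p2 t (by omega), ih (by omega), List.eq_of_mem_replicate (c2.mem_iff.1 (List.getElem_mem _))]; ring
  have p6 : P 0 ≤ B := by
    have := (List.getElem?_eq_some_iff.1 ((p4 _).2 ⟨m - 1, by omega, rfl⟩)).1
    obtain ⟨n, rfl⟩ : ∃ n, m = n + 1 := ⟨m - 1, by omega⟩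
    rw [p5 _ (by omega), s1, add_mul] at this; simp at this; omega
  obtain ⟨c, hc⟩ : ∃ c, c + P 0 = B + 1 := ⟨B + 1 - P 0, by omega⟩
  have p7 : ∀ k < m * (B + 1), (k + c) % (B + 1) = 0 → S[k]? = some 0 := fun k hk e => by
    have d1 := Nat.div_add_mod (k + c) (B + 1)
    obtain ⟨t, ht⟩ : ∃ t, (k + c) / (B + 1) = t + 1 := ⟨_, (Nat.succ_pred_eq_of_ne_zero fun h => by
      rw [h] at d1; omega).symm⟩
    rw [ht, e, mul_add, mul_comm] at d1
    have : t < m := Nat.lt_of_mul_lt_mul_right (a := B + 1) (by omega)
    exact (p4 k).2 ⟨t, by omega, by rw [p5 t this.le]; omega⟩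
  have q : ∀ i, ∃ b < m, i < L.length → ∀ k, S[k]? = some (i + 1) → (k + c) / (B + 1) % m = b := fun i => by
    by_cases hi : i < L.length
    swap
    · exact ⟨0, h2, fun h => absurd h hi⟩
    obtain ⟨d1, d2⟩ := s3 (i + 1) (by simpa [red] using hi)
    simp only [red, List.getElem_cons_succ, List.getElem_map] at d1 d2
    have := h1 _ (List.getElem_mem hi)
    have := len_le h1 h2 h3 _ (List.getElem_mem hi)
    obtain ⟨Q, q1, q2, q3, q4⟩ := dists_get (ne (i + 1) (by omega))
    have q5 : ∀ t < S.count (i + 1), (Q t + c) % (B + 1) ≠ 0 := fun t ht e => by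
      have e1 := (q4 _).2 ⟨t, ht, rfl⟩
      have := p7 _ (s1 ▸ (List.getElem?_eq_some_iff.1 e1).1) e
      rw [e1] at this; simp at this
    have q6 : (Q (S.count (i + 1)) + c) / (B + 1) = (Q 0 + c) / (B + 1) + m ∧
        (Q (S.count (i + 1)) + c) % (B + 1) = (Q 0 + c) % (B + 1) := by
      rw [q3, s1, show Q 0 + m * (B + 1) + c = Q 0 + c + m * (B + 1) by ring, Nat.add_mul_div_right _ _ (by omega),
        Nat.add_mul_mod_self_right]
      exact ⟨rfl, rfl⟩
    have q7 : ∀ t (h : t < (dists S (i + 1)).length), (dists S (i + 1))[t] = 1 →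
        (Q (t + 1) + c) / (B + 1) = (Q t + c) / (B + 1) := fun t h e => by
      have : (Q (t + 1) + c) % (B + 1) ≠ 0 := by
        by_cases c : t + 1 < S.count (i + 1)
        · exact q5 _ c
        · rw [show t + 1 = S.count (i + 1) by omega, q6.2]; exact q5 _ (by omega)
      rw [q2 t h, e, add_right_comm] at this ⊢
      rw [Nat.succ_div, if_neg fun h => this (Nat.mod_eq_zero_of_dvd h), add_zero]
    obtain ⟨u, hu, e⟩ := List.getElem_of_mem (d2.mem_iff.2 List.mem_cons_self)
    have q8 : ∀ t (h : t < (dists S (i + 1)).length), t ≠ u → (dists S (i + 1))[t] = 1 := fun t h hne => by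
      by_contra e'
      have e1 := d2.mem_iff.1 (List.getElem_mem h)
      have e2 : (dists S (i + 1))[t] = (dists S (i + 1))[u] := by
        rcases List.mem_cons.1 e1 with e1 | e1
        · rw [e1, e]
        · exact absurd (List.eq_of_mem_replicate e1) e'
      have e3 := d2.count_eq (dists S (i + 1))[u]
      rw [e, List.count_cons_self, List.count_replicate, if_neg (by rw [← e, ← e2]; simpa using Ne.symm e'), ← e] at e3
      have e4 : List.Duplicate (dists S (i + 1))[u] (dists S (i + 1)) := by
        rw [List.duplicate_iff_exists_distinct_get]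
        rcases lt_or_gt_of_ne hne with l | l
        · exact ⟨⟨t, h⟩, ⟨u, hu⟩, l, e2.symm, rfl⟩
        · exact ⟨⟨u, hu⟩, ⟨t, h⟩, l, rfl, e2.symm⟩
      have := List.duplicate_iff_two_le_count.1 e4
      omega
    have r1 : ∀ t ≤ u, (Q t + c) / (B + 1) = (Q 0 + c) / (B + 1) := fun t ht => by
      induction t with
      | zero => rfl
      | succ t ih => rw [q7 t (by omega) (q8 t _ (by omega)), ih (by omega)]
    have r2 : ∀ t ≤ S.count (i + 1), u < t → (Q t + c) / (B + 1) = (Q 0 + c) / (B + 1) + m := fun t ht => by
      induction ht using Nat.decreasingInduction with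
      | self => exact fun _ => q6.1
      | of_succ t h ih => exact fun h' => by rw [← q7 t (by omega) (q8 t _ (by omega)), ih (by omega)]
    refine ⟨(Q 0 + c) / (B + 1) % m, Nat.mod_lt _ h2, fun _ k hk => ?_⟩
    obtain ⟨t, ht, rfl⟩ := (q4 k).1 hk
    by_cases c : t ≤ u
    · rw [r1 t c]
    · rw [r2 t ht.le (by omega), Nat.add_mod_right]
  choose g g1 g2 using q
  refine ⟨g, fun i _ => g1 i, fun b hb => ?_⟩
  have r1 : ∀ i ∈ (range L.length).filter (g · = b), (L.getD i []).length = (pos S (i + 1)).toFinset.card :=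
    fun i hi => by
      have hi := mem_range.1 (mem_filter.1 hi).1
      rw [List.toFinset_card_of_nodup (pos_sorted _ _).nodup, len_pos, (s3 (i + 1) (by simpa [red] using hi)).1]
      simp [red, hi]
  simp only
  rw [sum_congr rfl r1, ← card_biUnion fun i _ j _ h => disjoint_left.2 fun k h1 h2 => by
    rw [List.mem_toFinset, mem_pos] at h1 h2; rw [h1] at h2; simp at h2; exact h h2]
  have r2 : ∀ k ∈ ((range L.length).filter (g · = b)).biUnion fun i => (pos S (i + 1)).toFinset,
      k < m * (B + 1) ∧ (k + c) % (B + 1) ≠ 0 ∧ (k + c) / (B + 1) % m = b := fun k hk => by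
    simp only [mem_biUnion, mem_filter, mem_range, List.mem_toFinset, mem_pos] at hk
    obtain ⟨i, ⟨e1, e2⟩, e3⟩ := hk
    have e4 := s1 ▸ (List.getElem?_eq_some_iff.1 e3).1
    exact ⟨e4, fun e => by have := p7 k e4 e; rw [e3] at this; simp at this, e2 ▸ g2 i e1 k e3⟩
  refine (card_le_card_of_injOn (t := Icc 1 B) (fun k => (k + c) % (B + 1)) (fun k hk => ?_)
    fun k hk j hj e => ?_).trans (by simp)
  · have := r2 k hk
    have := Nat.mod_lt (k + c) (show B + 1 > 0 by omega)
    simp; omega
  · obtain ⟨e1, -, e2⟩ := r2 k hk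
    obtain ⟨e3, -, e4⟩ := r2 j hj
    have : (k + c) % ((B + 1) * m) = (j + c) % ((B + 1) * m) := by
      rw [Nat.mod_mul, Nat.mod_mul, e2, e4]; exact congrArg (· + _) e
    have := Nat.ModEq.add_right_cancel' c this
    rw [mul_comm] at e1 e3
    exact this.eq_of_lt_of_lt e1 e3

end

end Pool.Agent.H.MP_0403ae_lc
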